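import Mathlib
import Pool.Agent.Helper544.Tri

noncomputable section
open scoped Classical

namespace Pool.Agent.Results.MP_1ce9e9_gt.Fillable

/-- A geodesic net in the Euclidean plane (identified with the complex numbers): a finite graph
whose vertices are points of the plane and whose edges are straight segments of weight one. -/
structure GeodesicNet where
  /-- the vertices -/
  V : Finset ℂ
  /-- `Adj a b` means that the segment `ab` is an edge -/
  Adj : ℂ → ℂ → Prop
  symm : ∀ a b, Adj a b → Adj b a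
  /-- edges join two distinct vertices -/
  edge_ends : ∀ a b, Adj a b → a ∈ V ∧ b ∈ V ∧ a ≠ b
  /-- two distinct edges meet only at a common endpoint -/
  edges_meet : ∀ a b c d, Adj a b → Adj c d → s(a, b) ≠ s(c, d) →
    ∀ z ∈ segment ℝ a b, z ∈ segment ℝ c d → (z = a ∨ z = b) ∧ (z = c ∨ z = d)
  /-- no vertex lies in the interior of an edge -/
  no_vertex_inside : ∀ a b, Adj a b → ∀ c ∈ V, c ∉ openSegment ℝ a b

namespace GeodesicNet

variable (G : GeodesicNet)

/-- the neighbours of `v` -/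
def neighbors (v : ℂ) : Finset ℂ := G.V.filter (fun w => G.Adj v w)

/-- the imbalance vector: the sum of the unit vectors along the edges at `v` -/
def imb (v : ℂ) : ℂ := ∑ w ∈ G.neighbors v, (w - v) / (‖w - v‖ : ℂ)

/-- balanced vertices have zero imbalance and degree at least three -/
def IsBalanced (v : ℂ) : Prop := G.imb v = 0 ∧ 3 ≤ (G.neighbors v).card

/-- the set of balanced vertices -/
def balancedVertices : Finset ℂ := G.V.filter (fun v => G.IsBalanced v)

/-- the set of unbalanced vertices: all other vertices -/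
def unbalancedVertices : Finset ℂ := G.V.filter (fun v => ¬ G.IsBalanced v)

end GeodesicNet

/-- `S` is the exact set of unbalanced vertices of geodesic nets with arbitrarily many balanced
vertices. -/
def UnboundedlyFillable (S : Finset ℂ) : Prop :=
  ∀ N : ℕ, ∃ G : GeodesicNet, G.unbalancedVertices = S ∧ N < G.balancedVertices.card

open Pool.Agent.Helper544.Planar Pool.Agent.Helper544.Chain Pool.Agent.Helper544.Tri

theorem f_one_ge {R : ℝ} (hR : 20 ≤ R) : 9 / 10 ≤ f R 1 := by
  unfold f
  have hD : 0 < R ^ 2 - R * 1 + 1 ^ 2 := D_pos 1 (by linarith)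
  rw [le_div_iff₀ (Real.sqrt_pos.2 hD)]
  have h1 : Real.sqrt (R ^ 2 - R * 1 + 1 ^ 2) ≤ (10 / 9) * (R - 2) := by
    rw [Real.sqrt_le_left (by linarith)]
    nlinarith
  linarith

theorem f_ten_le {R : ℝ} (hR : 20 ≤ R) (hR' : R ≤ 23) : f R 10 ≤ 1 / 5 := by
  unfold f
  have hD : 0 < R ^ 2 - R * 10 + 10 ^ 2 := D_pos 10 (by linarith)
  have h1 : 17 ≤ Real.sqrt (R ^ 2 - R * 10 + 10 ^ 2) := by
    apply Real.le_sqrt_of_sq_le
    nlinarith
  generalize Real.sqrt (R ^ 2 - R * 10 + 10 ^ 2) = s at h1
  rw [div_le_iff₀ (by linarith)]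
  linarith

def dat : Data (Fin 4) where
  R := fun l => 20 + (l : ℕ)
  w := fun _ => 1
  R_ge := fun l => by
    have : (0:ℝ) ≤ ((l : ℕ) : ℝ) := Nat.cast_nonneg _
    linarith
  glo := by
    have h : ∀ l : Fin 4, (9:ℝ) / 10 ≤ ((1:ℕ):ℝ) * f (20 + ((l : ℕ) : ℝ)) 1 := by
      intro l
      rw [Nat.cast_one, one_mul]
      apply f_one_ge
      have : (0:ℝ) ≤ ((l : ℕ) : ℝ) := Nat.cast_nonneg _
      linarith
    have h2 := Finset.sum_le_sum (fun (l : Fin 4) (_ : l ∈ Finset.univ) => h l)
    simp only [Finset.sum_const, Finset.card_univ, Fintype.card_fin, nsmul_eq_mul] at h2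
    have h3 : Real.sqrt 3 ≤ 9 / 5 := by
      rw [Real.sqrt_le_left (by norm_num)]; norm_num
    push_cast at h2 ⊢
    linarith
  ghi := by
    have h : ∀ l : Fin 4, ((1:ℕ):ℝ) * f (20 + ((l : ℕ) : ℝ)) 10 ≤ (1:ℝ) / 5 := by
      intro l
      rw [Nat.cast_one, one_mul]
      have h0 : (0:ℝ) ≤ ((l : ℕ) : ℝ) := Nat.cast_nonneg _
      have h1 : ((l : ℕ) : ℝ) ≤ 3 := by
        have := l.2
        have h' : (l : ℕ) ≤ 3 := by omega
        exact_mod_cast h'
      apply f_ten_le <;> linarith
    have h2 := Finset.sum_le_sum (fun (l : Fin 4) (_ : l ∈ Finset.univ) => h l)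
    simp only [Finset.sum_const, Finset.card_univ, Fintype.card_fin, nsmul_eq_mul] at h2
    push_cast at h2 ⊢
    linarith

theorem dat_inj : Function.Injective dat.R := by
  intro l l' h
  simp only [dat] at h
  have : ((l : ℕ) : ℝ) = ((l' : ℕ) : ℝ) := by linarith
  exact Fin.ext (by exact_mod_cast this)

theorem u_inner_self (k : Fin 3) : ((starRingEnd ℂ) (u k) * u k).re = 1 := by
  have h3 := s3sq
  fin_cases k <;> simp [u] <;> nlinarith

theorem u_inner_ne {j k : Fin 3} (h : j ≠ k) : ((starRingEnd ℂ) (u k) * u j).re = -1/2 := by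
  have h3 := s3sq
  fin_cases k <;> fin_cases j <;> simp [u] at h ⊢ <;> nlinarith

/-- the boundary points are not balanced -/
theorem bdry_imb {N : ℕ} (hN : 0 < N) {r : Fin N → ℝ} (hr : ∀ i, 1 ≤ r i ∧ r i ≤ 10) (l : Fin 4) (k : Fin 3) :
    ∑ y : Ix N (Fin 4), (Wf dat (Sum.inr (l, k)) y : ℂ) * uv (posf dat r (Sum.inr (l, k))) (posf dat r y) ≠ 0 := by
  intro h0
  have hR := dat.R_ge l
  have h1 := congrArg (fun z => ((starRingEnd ℂ) (u k) * z).re) h0
  simp only [Finset.mul_sum, Complex.re_sum, mul_zero, Complex.zero_re] at h1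
  have hterm : ∀ (i : Fin N) (j : Fin 3), j ≠ k →
      0 < ((starRingEnd ℂ) (u k) * uv (posf dat r (Sum.inr (l, k))) (posf dat r (Sum.inl (i, j)))).re := by
    intro i j hj
    have hri := hr i
    have e : uv (posf dat r (Sum.inr (l, k))) (posf dat r (Sum.inl (i, j))) =
        (((‖(r i : ℂ) * u j - -(dat.R l : ℂ) * u k‖)⁻¹ : ℝ) : ℂ) * ((r i : ℂ) * u j + (dat.R l : ℂ) * u k) := by
      simp only [uv, posf]
      push_cast
      rw [div_eq_inv_mul]
      ring
    rw [e]
    have hne : (r i : ℂ) * u j - -(dat.R l : ℂ) * u k ≠ 0 := by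
      intro h
      have h' : ((r i : ℝ) : ℂ) * u j = ((-dat.R l : ℝ) : ℂ) * u k := by push_cast; linear_combination h
      have := (comb_ne hj h').1
      linarith [hri.1]
    have hpos : 0 < (‖(r i : ℂ) * u j - -(dat.R l : ℂ) * u k‖)⁻¹ := inv_pos.2 (norm_pos_iff.2 hne)
    have e2 : (starRingEnd ℂ) (u k) * ((((‖(r i : ℂ) * u j - -(dat.R l : ℂ) * u k‖)⁻¹ : ℝ) : ℂ) * ((r i : ℂ) * u j + (dat.R l : ℂ) * u k))
        = (((‖(r i : ℂ) * u j - -(dat.R l : ℂ) * u k‖)⁻¹ : ℝ) : ℂ) *
          (((r i : ℝ) : ℂ) * ((starRingEnd ℂ) (u k) * u j) + ((dat.R l : ℝ) : ℂ) * ((starRingEnd ℂ) (u k) * u k)) := by ring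
    rw [e2, Complex.re_ofReal_mul, Complex.add_re, Complex.re_ofReal_mul, Complex.re_ofReal_mul,
      u_inner_self, u_inner_ne hj]
    apply mul_pos hpos
    linarith [hri.2]
  have hnn : ∀ y : Ix N (Fin 4), 0 ≤ ((starRingEnd ℂ) (u k) *
      ((Wf dat (Sum.inr (l, k)) y : ℂ) * uv (posf dat r (Sum.inr (l, k))) (posf dat r y))).re := by
    rintro (⟨i, j⟩ | ⟨l', k'⟩)
    · have e : Wf dat (Sum.inr (l, k)) (Sum.inl (i, j)) = if k ≠ j then 1 else 0 := rfl
      by_cases hj : j = k
      · rw [e, if_neg (by simpa using hj.symm)]; simp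
      · rw [e, if_pos (Ne.symm hj), Nat.cast_one, one_mul]
        exact (hterm i j hj).le
    · have e : Wf (N := N) dat (Sum.inr (l, k)) (Sum.inr (l', k')) = 0 := rfl
      rw [e]; simp
  have hz := (Finset.sum_eq_zero_iff_of_nonneg (fun y _ => hnn y)).1 h1
    (Sum.inl (⟨0, hN⟩, k + 1)) (Finset.mem_univ _)
  have e : Wf (N := N) dat (Sum.inr (l, k)) (Sum.inl (⟨0, hN⟩, k + 1)) = if k ≠ k + 1 then 1 else 0 := rfl
  rw [e, if_pos (f3d k), Nat.cast_one, one_mul] at hz
  have := hterm ⟨0, hN⟩ (k + 1) (f3d k).symm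
  linarith

/-- the twelve boundary points -/
def S : Finset ℂ := Finset.univ.image (fun p : Fin 4 × Fin 3 => -(dat.R p.1 : ℂ) * u p.2)

theorem S_card : S.card = 12 := by
  unfold S
  rw [Finset.card_image_of_injective]
  · simp
  · have hinj := posf_inj dat (N := 0) (r := fun _ => 1) (by intro i; exact i.elim0) (by intro i; exact i.elim0) dat_inj
    intro p q h
    have h' : posf dat (N := 0) (fun _ => 1) (Sum.inr p) = posf dat (N := 0) (fun _ => 1) (Sum.inr q) := h
    exact Sum.inr.inj (hinj h')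

theorem fillable : UnboundedlyFillable S := by
  intro M
  obtain ⟨r, hr, heq⟩ := exists_chain dat (M + 1)
  have hinj : Function.Injective r := (chain_strict dat hr heq).injective
  let D := drawing dat r hr hinj dat_inj
  have hW : ∀ x y, D.W x y ≤ 1 := by
    rintro (⟨i, j⟩ | ⟨l, k⟩) (⟨i', j'⟩ | ⟨l', k'⟩)
    · change (if j ≠ j' ∧ nb i i' then 1 else 0) ≤ 1
      split_ifs <;> norm_num
    · change (if k' ≠ j then 1 else 0) ≤ 1
      split_ifs <;> norm_num
    · change (if k ≠ j' then 1 else 0) ≤ 1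
      split_ifs <;> norm_num
    · change 0 ≤ 1
      norm_num
  have hm : ∀ a b, D.m a b ≠ 0 → D.m a b = 1 := by
    intro a b h
    have := D.m_le hW a b
    omega
  let G : GeodesicNet :=
    { V := D.V
      Adj := fun a b => D.m a b ≠ 0
      symm := fun a b h => by rw [D.m_symm]; exact h
      edge_ends := fun a b h => D.edge_mem h
      edges_meet := by
        intro a b c d hab hcd hne z hz hz'
        refine D.planar hab hcd ?_ hz hz'
        rintro (⟨h1, h2⟩ | ⟨h1, h2⟩)
        · exact hne (by rw [h1, h2])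
        · exact hne (by rw [h1, h2]; exact Sym2.eq_swap)
      no_vertex_inside := fun a b h c hc => D.no_interior h hc }
  have himb : ∀ v, G.imb v = ∑ w ∈ D.V, (D.m v w : ℂ) * uv v w := by
    intro v
    unfold GeodesicNet.imb GeodesicNet.neighbors
    rw [Finset.sum_filter]
    refine Finset.sum_congr rfl fun w _ => ?_
    by_cases h : D.m v w ≠ 0
    · rw [if_pos (show G.Adj v w from h), hm v w h]; simp [uv]
    · rw [if_neg (show ¬ G.Adj v w from h)]
      push Not at h
      rw [h]; simp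
  have hdeg : ∀ v, (G.neighbors v).card = (D.V.filter (fun w => D.m v w ≠ 0)).card := by
    intro v
    refine congrArg Finset.card ?_
    ext w
    simp only [GeodesicNet.neighbors, Finset.mem_filter]
    exact Iff.rfl
  have hball : ∀ i j, G.IsBalanced (D.pos (Sum.inl (i, j))) := by
    intro i j
    constructor
    · rw [himb, D.imb_pos]
      exact balanced dat hr heq i j
    · rw [hdeg]
      exact le_trans (degree_layer dat (fun _ => by norm_num [dat]) 0 i j) (D.degree_pos _)
  have hcross : ∀ v ∈ D.V, v ∉ Set.range D.pos → G.IsBalanced v := by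
    intro v hv hv'
    constructor
    · rw [himb]; exact D.imb_cross hv hv'
    · rw [hdeg]; exact le_trans (by norm_num) (D.degree_cross hv hv')
  have hunb : ∀ l k, ¬ G.IsBalanced (D.pos (Sum.inr (l, k))) := by
    intro l k h
    have h1 := h.1
    rw [himb, D.imb_pos] at h1
    exact bdry_imb (Nat.succ_pos M) hr l k h1
  refine ⟨G, ?_, ?_⟩
  · ext v
    simp only [GeodesicNet.unbalancedVertices, Finset.mem_filter, S, Finset.mem_image, Finset.mem_univ, true_and]
    constructor
    · rintro ⟨hv, hnb⟩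
      by_cases hvr : v ∈ Set.range D.pos
      · obtain ⟨x, rfl⟩ := hvr
        rcases x with ⟨i, j⟩ | ⟨l, k⟩
        · exact absurd (hball i j) hnb
        · exact ⟨(l, k), rfl⟩
      · exact absurd (hcross v hv hvr) hnb
    · rintro ⟨⟨l, k⟩, rfl⟩
      exact ⟨D.pos_mem (Sum.inr (l, k)), hunb l k⟩
  · have hsub : (Finset.univ : Finset (Fin (M + 1))).image (fun i => D.pos (Sum.inl (i, 0))) ⊆ G.balancedVertices := by
      intro v hv
      simp only [Finset.mem_image, Finset.mem_univ, true_and] at hv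
      obtain ⟨i, rfl⟩ := hv
      simp only [GeodesicNet.balancedVertices, Finset.mem_filter]
      exact ⟨D.pos_mem _, hball i 0⟩
    have hc := Finset.card_le_card hsub
    rw [Finset.card_image_of_injective] at hc
    · simp at hc
      omega
    · intro i i' h
      have := D.inj h
      have := Sum.inl.inj this
      rw [Prod.mk.injEq] at this
      exact this.1

/-- There is a set of twelve points of the plane that is unboundedly fillable. -/
theorem result : ∃ S : Finset ℂ, S.card = 12 ∧ UnboundedlyFillable S :=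
  ⟨S, S_card, fillable⟩

end Pool.Agent.Results.MP_1ce9e9_gt.Fillable
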